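import Pool.Agent.Helper92.TN.GoalsD

set_option autoImplicit false

open Polynomial IntermediateField Module

namespace Pool.Agent.Helper62.TN.SYMF

noncomputable section

/-! ### Products over embeddings -/

theorem prod_gen {K L E : Type} [Field K] [Field L] [Field E] [Algebra K L] [Algebra K E]
    [IsAlgClosed E] (pb : PowerBasis K L) (hs : IsSeparable K pb.gen) :
    (@Finset.univ _ (PowerBasis.AlgHom.fintype pb)).prod
      (fun σ : L →ₐ[K] E => (X - C (σ pb.gen) : E[X])) =
      (minpoly K pb.gen).map (algebraMap K E) := by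
  classical
  have hint : IsIntegral K pb.gen := hs.isIntegral
  rw [@Fintype.prod_equiv (L →ₐ[K] E) _ _ (PowerBasis.AlgHom.fintype pb) _ _ pb.liftEquiv'
    (fun σ => (X - C (σ pb.gen) : E[X])) (fun x => (X - C (x : E) : E[X])) ?_]
  · rw [Finset.prod_mem_multiset ((minpoly K pb.gen).aroots E) _
      (fun y : E => (X - C y : E[X])) (fun _ => rfl)]
    rw [Finset.prod_eq_multiset_prod, Multiset.toFinset_val,
      Multiset.dedup_eq_self.mpr (nodup_roots (.map hs))]
    exact ((IsAlgClosed.splits _).eq_prod_roots_of_monic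
      ((minpoly.monic hint).map (algebraMap K E))).symm
  · intro σ
    simp only [PowerBasis.liftEquiv'_apply_coe]

theorem prod_emb (K F E : Type) [Field K] [Field F] [Field E] [Algebra K F] [Algebra K E]
    [IsAlgClosed E] [Algebra.IsSeparable K F] [FiniteDimensional K F] (x : F) :
    ∏ σ : F →ₐ[K] E, (X - C (σ x) : E[X]) =
      ((minpoly K x).map (algebraMap K E)) ^ finrank K⟮x⟯ F := by
  classical
  have hx : IsIntegral K x := IsIntegral.of_finite K x
  set L := K⟮x⟯ with hL
  set pb : PowerBasis K L := adjoin.powerBasis hx with hpb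
  have hgen : algebraMap L F pb.gen = x := by
    rw [hpb, adjoin.powerBasis_gen]
    rfl
  have : FiniteDimensional L F := FiniteDimensional.right K L F
  have : Algebra.IsSeparable L F := Algebra.isSeparable_tower_top_of_isSeparable K L F
  have hsL := Algebra.isSeparable_tower_bot_of_isSeparable K L F
  let : Fintype (L →ₐ[K] E) := PowerBasis.AlgHom.fintype pb
  have hm : minpoly K pb.gen = minpoly K x := by
    conv_rhs => rw [← hgen]
    rw [minpoly.algebraMap_eq (algebraMap L F).injective]
  rw [← hm, ← prod_gen pb (Algebra.IsSeparable.isSeparable K _)]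
  rw [Fintype.prod_equiv algHomEquivSigma (fun σ : F →ₐ[K] E => (X - C (σ x) : E[X]))
    (fun σ => (X - C (σ.1 pb.gen) : E[X])),
    ← Finset.univ_sigma_univ, Finset.prod_sigma, ← Finset.prod_pow]
  · refine Finset.prod_congr rfl fun σ _ => ?_
    let : Algebra L E := σ.toRingHom.toAlgebra
    simp_rw [Finset.prod_const]
    congr
    exact AlgHom.card L F E
  · intro σ
    simp only [algHomEquivSigma, Equiv.coe_fn_mk, AlgHom.domRestrict, AlgHom.comp_apply,
      IsScalarTower.coe_toAlgHom', hgen]

/-! ### Fraction fields -/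

section

variable {k F : Type} [Field k] [Field F] [Algebra k F]

/-- evaluation at `v` with values in `k(v)` -/
def ph (v : F) : k[X] →+* k⟮v⟯ :=
  (aeval (⟨v, mem_adjoin_simple_self k v⟩ : k⟮v⟯) : k[X] →ₐ[k] k⟮v⟯).toRingHom

theorem ph_coe (v : F) (p : k[X]) : ((ph v p : k⟮v⟯) : F) = aeval v p := by
  change algebraMap k⟮v⟯ F (aeval (⟨v, mem_adjoin_simple_self k v⟩ : k⟮v⟯) p) = _
  rw [← aeval_algebraMap_apply]
  rfl

theorem ph_inj {v : F} (hv : Transcendental k v) : Function.Injective (ph (k := k) v) := by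
  intro p q h
  have h1 : aeval v p = aeval v q := by rw [← ph_coe, ← ph_coe, h]
  exact (transcendental_iff_injective.1 hv) h1

theorem frac {v : F} (hv : Transcendental k v) :
    @IsFractionRing k[X] _ k⟮v⟯ _ (ph v).toAlgebra := by
  let := (ph (k := k) v).toAlgebra
  have : FaithfulSMul k[X] k⟮v⟯ :=
    (faithfulSMul_iff_algebraMap_injective _ _).2 (ph_inj hv)
  refine IsFractionRing.of_field _ _ fun z => ?_
  obtain ⟨r, s, hrs⟩ := (mem_adjoin_simple_iff k (z : F)).1 z.2
  refine ⟨r, s, ?_⟩
  apply Subtype.ext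
  change (z : F) = algebraMap k⟮v⟯ F (ph v r / ph v s)
  rw [map_div₀]
  change (z : F) = (ph v r : F) / (ph v s : F)
  rw [ph_coe, ph_coe, hrs]

theorem gauss_irr {v : F} (hv : Transcendental k v) {P : k[X][X]} (hP : P.IsPrimitive) :
    Irreducible P ↔ Irreducible (P.map (ph v)) := by
  let := (ph (k := k) v).toAlgebra
  have := frac hv
  exact hP.irreducible_iff_irreducible_map_fraction_map (K := k⟮v⟯)

theorem gauss_dvd {v : F} (hv : Transcendental k v) {P Q : k[X][X]} (hP : P.IsPrimitive)
    (h : P.map (ph v) ∣ Q.map (ph v)) : P ∣ Q := by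
  let := (ph (k := k) v).toAlgebra
  have := frac hv
  exact hP.dvd_of_fraction_map_dvd_fraction_map (K := k⟮v⟯) h

theorem exP {v : F} (hv : Transcendental k v) {m : k⟮v⟯[X]} (hm : Irreducible m) :
    ∃ (P : k[X][X]) (c : k⟮v⟯), c ≠ 0 ∧ Irreducible P ∧ P.IsPrimitive ∧
      P.map (ph v) = C c * m := by
  let := (ph (k := k) v).toAlgebra
  have := frac hv
  let : NormalizedGCDMonoid k[X] := Classical.choice inferInstance
  obtain ⟨b, hb, h⟩ := IsLocalization.integerNormalization_spec (nonZeroDivisors k[X]) m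
  set q := IsLocalization.integerNormalization (nonZeroDivisors k[X]) m with hq
  have hb0 : ph v b ≠ 0 := by
    intro h0
    exact nonZeroDivisors.ne_zero hb (ph_inj hv (by rw [h0, map_zero]))
  have h1 : q.map (ph v) = C (ph v b) * m := by
    have h2 : b • m = C (ph v b) * m := by
      rw [Algebra.smul_def]
      rfl
    rw [← h2]
    exact h
  have hq0 : q ≠ 0 := by
    intro h0
    rw [h0, Polynomial.map_zero] at h1
    have := mul_ne_zero (C_ne_zero.2 hb0) hm.ne_zero
    exact this h1.symm
  have hc0 : ph v q.content ≠ 0 := by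
    intro h0
    have h2 : q.content = 0 := ph_inj hv (by rw [h0, map_zero])
    exact hq0 (content_eq_zero_iff.1 h2)
  have h3 : C (ph v q.content) * q.primPart.map (ph v) = C (ph v b) * m := by
    rw [← h1]
    conv_rhs => rw [q.eq_C_content_mul_primPart]
    rw [Polynomial.map_mul, map_C]
  have h4 : q.primPart.map (ph v) = C ((ph v q.content)⁻¹ * ph v b) * m := by
    rw [C_mul, mul_assoc, ← h3, ← mul_assoc, ← C_mul, inv_mul_cancel₀ hc0, C_1, one_mul]
  have hc : (ph v q.content)⁻¹ * ph v b ≠ 0 := mul_ne_zero (inv_ne_zero hc0) hb0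
  refine ⟨q.primPart, _, hc, ?_, q.isPrimitive_primPart, h4⟩
  rw [gauss_irr hv q.isPrimitive_primPart, h4]
  have hu : IsUnit (C ((ph v q.content)⁻¹ * ph v b) : k⟮v⟯[X]) :=
    isUnit_C.2 (isUnit_iff_ne_zero.2 hc)
  exact (irreducible_isUnit_mul hu).2 hm

/-! ### Bivariate polynomials -/

theorem coeff_swap (p : k[X][X]) (m l : ℕ) :
    ((Bivariate.swap p).coeff m).coeff l = (p.coeff l).coeff m := by
  induction p using Polynomial.induction_on' with
  | add p q hp hq => simp only [map_add, coeff_add, hp, hq]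
  | monomial n a =>
    induction a using Polynomial.induction_on' with
    | add a b ha hb => simp only [map_add, coeff_add, ha, hb]
    | monomial j r =>
      rw [Bivariate.swap_monomial_monomial]
      simp only [coeff_monomial]
      split_ifs <;> simp_all [coeff_monomial]

theorem coeff_le (p : k[X][X]) (l : ℕ) :
    (p.coeff l).natDegree ≤ (Bivariate.swap p).natDegree := by
  rw [natDegree_le_iff_coeff_eq_zero]
  intro m hm
  rw [← coeff_swap, coeff_eq_zero_of_natDegree_lt hm, coeff_zero]

theorem ev_map (v x : F) (P : k[X][X]) : aeval x (P.map (ph v)) = aevalAeval v x P := by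
  induction P using Polynomial.induction_on' with
  | add p q hp hq => simp only [Polynomial.map_add, map_add, hp, hq]
  | monomial n a =>
    rw [map_monomial, aeval_monomial, ← C_mul_X_pow_eq_monomial, map_mul, map_pow,
      aevalAeval_C, aevalAeval_Y]
    congr 1
    exact ph_coe v a

end

/-! ### The theorem -/

theorem t : Pool.Agent.Helper92.TN.SYMF := by
  intro k F _ _ _ _ v hv hfin x E _ _ _ ev hev
  have hphi : ev = (algebraMap k⟮v⟯ E).comp (ph v) := by
    ext p
    · exact hev (C p)
    · exact hev X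
  have : CharZero k⟮v⟯ := charZero_of_injective_algebraMap (algebraMap k k⟮v⟯).injective
  have hx : IsIntegral k⟮v⟯ x := IsIntegral.of_finite _ x
  obtain ⟨P, c, hc, hPi, hPp, hPm⟩ := exP hv (minpoly.irreducible hx)
  have hu : IsUnit (C c : k⟮v⟯[X]) := isUnit_C.2 (isUnit_iff_ne_zero.2 hc)
  obtain ⟨r, hr⟩ : ∃ r, r = finrank k⟮v⟯⟮x⟯ F := ⟨_, rfl⟩
  have hs : (Bivariate.swap P).natDegree * r ≤ finrank k⟮x⟯ F := by
    by_cases h0 : (Bivariate.swap P).natDegree = 0
    · rw [h0, zero_mul]; exact Nat.zero_le _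
    have hxt : Transcendental k x := by
      intro halg
      have hxk : IsIntegral k x := halg.isIntegral
      have e1 : ((minpoly k x).map (C : k →+* k[X])).map (ph v) =
          (minpoly k x).map (algebraMap k k⟮v⟯) := by
        rw [Polynomial.map_map]
        congr 1
        ext a
        change ((ph v (C a) : k⟮v⟯) : F) = _
        rw [ph_coe, aeval_C]
        rfl
      have e2 : P.map (ph v) ∣ ((minpoly k x).map (C : k →+* k[X])).map (ph v) := by
        rw [e1, hPm, hu.mul_left_dvd]
        exact minpoly.dvd_map_of_isScalarTower k k⟮v⟯ x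
      have e3 := gauss_dvd hv hPp e2
      have e4 : Bivariate.swap P ∣ C (minpoly k x) := by
        obtain ⟨q, hq⟩ := e3
        refine ⟨Bivariate.swap q, ?_⟩
        rw [← Bivariate.swap_map_C, hq, map_mul]
      have e5 := natDegree_le_of_dvd e4 (C_ne_zero.2 (minpoly.ne_zero hxk))
      rw [natDegree_C] at e5
      omega
    have hP'i : Irreducible (Bivariate.swap P) := by
      rw [MulEquiv.irreducible_iff]
      exact hPi
    have hP'p : (Bivariate.swap P).IsPrimitive := hP'i.isPrimitive h0
    have hirr := (gauss_irr hxt hP'p).1 hP'i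
    have hroot : aeval v ((Bivariate.swap P).map (ph x)) = 0 := by
      rw [ev_map, Bivariate.aevalAeval_swap, ← ev_map, hPm, map_mul, minpoly.aeval, mul_zero]
    have hdeg : (minpoly k⟮x⟯ v).natDegree = (Bivariate.swap P).natDegree := by
      rw [← minpoly.eq_of_irreducible hirr hroot,
        natDegree_mul_C (inv_ne_zero (leadingCoeff_ne_zero.2 hirr.ne_zero)),
        natDegree_map_eq_of_injective (ph_inj hxt)]
    have hvint : IsIntegral k⟮x⟯ v :=
      IsAlgebraic.isIntegral ⟨_, hirr.ne_zero, hroot⟩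
    have e : (k⟮x⟯⟮v⟯).restrictScalars k = (k⟮v⟯⟮x⟯).restrictScalars k :=
      adjoin_adjoin_comm k {x} {v}
    have hfr : finrank k⟮x⟯⟮v⟯ F = r := by
      have h1 : finrank ((k⟮x⟯⟮v⟯).restrictScalars k) F =
          finrank ((k⟮v⟯⟮x⟯).restrictScalars k) F := by rw [e]
      rw [hr]
      exact h1
    rw [← hdeg, ← adjoin.finrank hvint, ← hfr, finrank_mul_finrank]
  refine ⟨P ^ r, pow_ne_zero _ hPi.ne_zero, fun l => ?_, ?_⟩
  · refine (coeff_le _ l).trans ?_
    rw [map_pow, natDegree_pow, mul_comm]
    exact hs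
  · have hlc : ev P.leadingCoeff = algebraMap k⟮v⟯ E c := by
      have h1 : (P.map (ph v)).leadingCoeff = ph v P.leadingCoeff :=
        leadingCoeff_map_of_injective (ph_inj hv) P
      rw [hphi]
      change algebraMap k⟮v⟯ E (ph v P.leadingCoeff) = _
      rw [← h1, hPm, leadingCoeff_mul, leadingCoeff_C, (minpoly.monic hx).leadingCoeff, mul_one]
    have hmap : P.map ev = C (algebraMap k⟮v⟯ E c) * (minpoly k⟮v⟯ x).map (algebraMap k⟮v⟯ E) := by
      rw [hphi, ← Polynomial.map_map, hPm, Polynomial.map_mul, map_C]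
    rw [finprod_eq_prod_of_fintype, prod_emb k⟮v⟯ F E x, ← hr, Polynomial.map_pow, hmap, mul_pow,
      leadingCoeff_pow, map_pow, hlc, C_pow]

end

end Pool.Agent.Helper62.TN.SYMF
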